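import Pool.Agent.W207.PR.A1

open Filter Topology Set MeasureTheory

namespace Pool.Agent.W515.PR

open W207.PR

theorem dense_periods : S_DENSE := by
  intro O Q g hodd hQ hg hO L hL hper
  have htr : ∀ (d : ℝ) (P : ℝ → Prop), (∀ᵐ u : ℝ, P u) → ∀ᵐ u : ℝ, P (u + d) := by
    intro d P hP
    exact (measurePreserving_add_right (volume : Measure ℝ) d).quasiMeasurePreserving.ae hP
  let H : AddSubgroup ℝ :=
    { carrier := {d | ∀ᵐ u : ℝ, O (u + d) = O u}
      zero_mem' := by simp
      add_mem' := by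
        intro a b ha hb
        have h1 := htr a _ hb
        show ∀ᵐ u : ℝ, O (u + (a + b)) = O u
        filter_upwards [h1, show ∀ᵐ u : ℝ, O (u + a) = O u from ha] with u hu1 hu2
        rw [← add_assoc, hu1, hu2]
      neg_mem' := by
        intro a ha
        have h1 := htr (-a) _ ha
        show ∀ᵐ u : ℝ, O (u + (-a)) = O u
        filter_upwards [h1] with u hu
        rw [neg_add_cancel_right] at hu
        exact hu.symm }
  have hLH : AddSubgroup.closure L ≤ H := (AddSubgroup.closure_le _).mpr (fun d hd => hper d hd)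
  have hHd : Dense (H : Set ℝ) := hL.mono hLH
  obtain ⟨H0, hH0, hc, hd⟩ := hHd.exists_countable_dense_subset
  have hae : ∀ᵐ u : ℝ, ∀ d ∈ H0, O (u + d) = O u :=
    (ae_ball_iff hc).mpr (fun d hd => hH0 hd)
  -- a good point in every open interval
  have hpt : ∀ a b : ℝ, a < b → ∃ u, a < u ∧ u < b ∧ ∀ d ∈ H0, O (u + d) = O u := by
    intro a b hab
    have h1 : (volume : Measure ℝ) (Ioo a b) ≠ 0 := by
      rw [Real.volume_Ioo]
      simp [hab]
    have h2 : ∃ᵐ u : ℝ, u ∈ Ioo a b := frequently_ae_mem_iff.mpr h1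
    obtain ⟨u, hu, hu2⟩ := (h2.and_eventually hae).exists
    exact ⟨u, hu.1, hu.2, hu2⟩
  obtain ⟨u1, hu1, _, hu1d⟩ := hpt 0 1 one_pos
  set k := O u1 with hk
  -- good values near every positive point
  have hval : ∀ a b : ℝ, 0 ≤ a → a < b → ∃ w, a < w ∧ w < b ∧ Q w = g w + k := by
    intro a b ha hab
    obtain ⟨d, hd1, hd2⟩ := hd.exists_mem_open (isOpen_Ioo (a := a - u1) (b := b - u1))
      (nonempty_Ioo.mpr (by linarith))
    refine ⟨u1 + d, by linarith [hd2.1], by linarith [hd2.2], ?_⟩
    have h1 := hu1d d hd1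
    have h2 : 0 < u1 + d := by linarith [hd2.1]
    rw [hO _ h2] at h1
    linarith
  have hQk : ∀ v, 0 < v → Q v = g v + k := by
    intro v hv
    apply le_antisymm
    · by_contra hlt
      push Not at hlt
      have h1 : ∀ᶠ w in 𝓝 v, g w < Q v - k :=
        hg.continuousAt.eventually_lt_const (by linarith)
      obtain ⟨δ, hδ, h2⟩ := Metric.eventually_nhds_iff.mp h1
      obtain ⟨w, hw1, hw2, hw3⟩ := hval v (v + δ) hv.le (by linarith)
      have h3 := h2 (y := w) (by rw [Real.dist_eq, abs_lt]; constructor <;> linarith)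
      have h4 := hQ hw1.le
      linarith
    · by_contra hlt
      push Not at hlt
      have h1 : ∀ᶠ w in 𝓝 v, Q v - k < g w :=
        hg.continuousAt.eventually_const_lt (by linarith)
      obtain ⟨δ, hδ, h2⟩ := Metric.eventually_nhds_iff.mp h1
      obtain ⟨w, hw1, hw2, hw3⟩ := hval (max (v - δ) 0) v (le_max_right _ _)
        (max_lt (by linarith) hv)
      have h5 := (le_max_left (v - δ) 0).trans_lt hw1
      have h3 := h2 (y := w) (by rw [Real.dist_eq, abs_lt]; constructor <;> linarith)
      have h4 := hQ hw2.le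
      linarith
  -- the constant is zero
  obtain ⟨d, hd1, hd2⟩ := hd.exists_mem_open (isOpen_Ioi (a := (0 : ℝ)))
    ⟨1, mem_Ioi.mpr one_pos⟩
  have hdpos : 0 < d := hd2
  obtain ⟨u, hu1', hu2', hu3⟩ := hpt (-d) 0 (by linarith)
  have h1 := hu3 d hd1
  have h2 : O (u + d) = k := by
    rw [hO _ (by linarith), hQk _ (by linarith)]; ring
  have h3 : O (-u) = k := by
    rw [hO _ (by linarith), hQk _ (by linarith)]; ring
  have h4 : O (-u) = - O u := hodd u
  have hk0 : k = 0 := by linarith
  intro v hv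
  rw [hQk v hv, hk0, add_zero]

end Pool.Agent.W515.PR
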